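import Pool.Agent.Zk32.Extra2

/-!
# One more multiplier, for a positive proportion of the exponents

Furstenberg's question for a measure which is invariant under `x ↦ p x`, `x ↦ q x` and, for a
positive proportion of the exponents `(a, b, c, d)`, under multiplication by
`r + c₁ p ^ a q ^ b + c₂ p ^ c q ^ d`.
-/

set_option autoImplicit false

open MeasureTheory

namespace Pool.Agent.Results.MP_e27144_an.ExtraMultipliers

open Pool.Agent.Zk32 in
/-- **Images under sums of two elements of the semigroup.** Let `p ≥ 2`, let `q` be any natural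
number and let `μ` be a probability measure on `ℝ/ℤ` invariant under `x ↦ p x` and `x ↦ q x`,
jointly ergodic, without atoms and different from Lebesgue measure. Let `c₁`, `c₂` be non-zero
integers and `ε > 0`. There is `N₀` such that for every integer `r` and every box
`∏ [α i, α i + N i)` of exponents `v = (v 0, v 1, v 2, v 3)`, anywhere in `ℕ ^ 4`, whose four sides
are at least `N₀`, the image of `μ` under multiplication by
`r + c₁ p ^ (v 0) q ^ (v 1) + c₂ p ^ (v 2) q ^ (v 3)` is singular to `μ` for all the exponents `v`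
of the box but a proportion at most `ε`. If `r = 0`, it is enough that one of the two sides
belonging to `p` and one of the two sides belonging to `q` are at least `N₀` (the other two may be
`1`), which covers the multipliers `c₂ + c₁ p ^ a q ^ b` and `c₁ p ^ a + c₂ q ^ b`. -/
theorem result {p q : ℕ} (hp : 2 ≤ p) (μ : Measure UnitAddCircle)
    [IsProbabilityMeasure μ]
    (hμp : MeasurePreserving (fun x : UnitAddCircle => p • x) μ μ)
    (hμq : MeasurePreserving (fun x : UnitAddCircle => q • x) μ μ)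
    (herg : ∀ E : Set UnitAddCircle, MeasurableSet E →
      (fun x : UnitAddCircle => p • x) ⁻¹' E = E → (fun x : UnitAddCircle => q • x) ⁻¹' E = E →
        μ E = 0 ∨ μ E = 1)
    (hat : ∀ x : UnitAddCircle, μ {x} = 0) (hvol : μ ≠ volume)
    (c₁ c₂ : ℤ) (hc₁ : c₁ ≠ 0) (hc₂ : c₂ ≠ 0) (ε : ℝ) (hε : 0 < ε) :
    ∃ N₀ : ℕ, ∀ (r : ℤ) (α N : Fin 4 → ℕ),
      ((∀ i, N₀ ≤ N i) ∨ (r = 0 ∧ (N₀ ≤ N 0 ∨ N₀ ≤ N 2) ∧ (N₀ ≤ N 1 ∨ N₀ ≤ N 3))) →
      ({v : Fin 4 → ℕ | (∀ i, α i ≤ v i ∧ v i < α i + N i) ∧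
        ¬ (μ.map (fun x : UnitAddCircle => (r + c₁ * ((p : ℤ) ^ v 0 * (q : ℤ) ^ v 1) +
          c₂ * ((p : ℤ) ^ v 2 * (q : ℤ) ^ v 3)) • x)).MutuallySingular μ}.ncard : ℝ) ≤
        ε * ∏ i, (N i : ℝ) := by
  classical
  obtain ⟨N₀, hN₀⟩ := extra_main hp hμp hμq herg hat hvol hc₁ hc₂ hε
  refine ⟨N₀, fun r α N hN => ?_⟩
  set B : Set (Fin 4 → ℕ) := {v : Fin 4 → ℕ | (∀ i, α i ≤ v i ∧ v i < α i + N i) ∧
        ¬ (μ.map (fun x : UnitAddCircle => (r + c₁ * ((p : ℤ) ^ v 0 * (q : ℤ) ^ v 1) +
          c₂ * ((p : ℤ) ^ v 2 * (q : ℤ) ^ v 3)) • x)).MutuallySingular μ} with hB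
  by_cases h1 : ∀ i, 1 ≤ N i
  · have h2 := hN₀ r α N h1 hN
    have hcard : ((boxQ N).card : ℝ) = ∏ i, (N i : ℝ) := by
      rw [Fin.prod_univ_four]
      unfold boxQ
      rw [Finset.card_product, Finset.card_product, Finset.card_product]
      simp only [Finset.card_range]
      push_cast; ring
    rw [hcard] at h2
    refine le_trans ?_ h2
    set F := (boxQ N).filter (fun v =>
        ¬ (img μ (mlt p q c₁ c₂ r α v)).MutuallySingular μ) with hF
    have h3 : B.ncard ≤ (F : Set ((ℕ × ℕ) × (ℕ × ℕ))).ncard := by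
      refine Set.ncard_le_ncard_of_injOn
        (fun v : Fin 4 → ℕ => ((v 0 - α 0, v 1 - α 1), (v 2 - α 2, v 3 - α 3))) ?_ ?_
        F.finite_toSet
      · rintro v ⟨hv, hns⟩
        rw [Finset.mem_coe, hF, Finset.mem_filter]
        refine ⟨?_, ?_⟩
        · have a0 := hv 0
          have a1 := hv 1
          have a2 := hv 2
          have a3 := hv 3
          simp only [boxQ, Finset.mem_product, Finset.mem_range]
          omega
        · have e : mlt p q c₁ c₂ r α ((v 0 - α 0, v 1 - α 1), (v 2 - α 2, v 3 - α 3)) =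
              r + c₁ * ((p : ℤ) ^ v 0 * (q : ℤ) ^ v 1) + c₂ * ((p : ℤ) ^ v 2 * (q : ℤ) ^ v 3) := by
            unfold mlt
            simp only
            rw [Nat.add_sub_cancel' (hv 0).1, Nat.add_sub_cancel' (hv 1).1,
              Nat.add_sub_cancel' (hv 2).1, Nat.add_sub_cancel' (hv 3).1]
          rw [e]
          exact hns
      · rintro v ⟨hv, -⟩ w ⟨hw, -⟩ hvw
        simp only [Prod.mk.injEq] at hvw
        obtain ⟨⟨b0, b1⟩, b2, b3⟩ := hvw
        funext i
        have hvi := hv i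
        have hwi := hw i
        fin_cases i <;> simp at hvi hwi ⊢ <;> omega
    rw [Set.ncard_coe_finset] at h3
    exact_mod_cast h3
  · push Not at h1
    obtain ⟨i, hi⟩ := h1
    have h2 : B = ∅ := by
      rw [Set.eq_empty_iff_forall_notMem]
      rintro v ⟨hv, -⟩
      have := hv i
      omega
    rw [h2, Set.ncard_empty]
    have : 0 ≤ ∏ i, (N i : ℝ) := Finset.prod_nonneg fun i _ => Nat.cast_nonneg _
    push_cast
    positivity

end Pool.Agent.Results.MP_e27144_an.ExtraMultipliers
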