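import Mathlib
import Pool.Agent.Zk24.NZ.Main
import Pool.Agent.Zk24.NZ.Erg
import Pool.Agent.Zk32.TrE

set_option autoImplicit false

open MeasureTheory Filter Topology
open scoped ENNReal

/-- Let `p, q ≥ 2` be coprime (for instance `2` and `3`) and let `μ` be a probability measure on the
circle `R/Z` invariant under `x ↦ p x` and `x ↦ q x`, jointly ergodic and different from Lebesgue
measure.

(1) For an integer `c ≠ 0` there is a Borel set `A` with `μ A = 1` such that, `x` being of law `μ`,
almost surely `c x + t` is not in `A`, for all points `t` (so that almost surely `c x + y` is not in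
`A` for every random `y` independent of `x`, whatever its law), if and only if for every `d ≥ 1` the
images of `μ` under multiplication by `d c` and by `d` are different.

(2) Let `y` be a random point of the circle whose law `ω` is recurrent under translations by the
nonzero points of a countable set `C`: for every Borel set `E` of positive measure there is `θ ≠ 0`
in `C` such that `y` and `y + θ` are in `E` with positive probability.  (In other words, no Borel set
of positive measure is disjoint from all its translates by the nonzero points of `C`.)  There is one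
Borel set `A` with `μ A = 1` such that, if `x` has law `μ` and is independent of `y`, almost surely
`c x + y + t` is not in `A`, for all integers `c ≠ 0` and all points `t`.

(3) The same holds for every `y = ∑ X n`, where the `X n` are random points of the circle, each with
at most countably many values, such that the series converges almost surely, its sum has no atoms and
all the tail events have probability zero or at least some `e > 0` (for instance, by Kolmogorov's law,
if the `X n` are independent).  The laws of these `y` include all the continuous infinite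
convolutions of discrete measures. -/
theorem Pool.Agent.Results.MP_e27144_an.RecurrentNoise.result.{u} :
    ∀ p q : ℕ, 2 ≤ p → 2 ≤ q → Nat.Coprime p q →
    ∀ μ : Measure UnitAddCircle, IsProbabilityMeasure μ →
      MeasurePreserving (fun x : UnitAddCircle => p • x) μ μ →
      MeasurePreserving (fun x : UnitAddCircle => q • x) μ μ →
      (∀ E : Set UnitAddCircle, MeasurableSet E → (fun x : UnitAddCircle => p • x) ⁻¹' E = E →
        (fun x : UnitAddCircle => q • x) ⁻¹' E = E → μ E = 0 ∨ μ E = 1) →
      μ ≠ volume →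
    (∀ c : ℤ, c ≠ 0 →
      ((∃ A : Set UnitAddCircle, MeasurableSet A ∧ μ A = 1 ∧
          ∀ t : UnitAddCircle, μ {x | c • x + t ∈ A} = 0) ↔
        ∀ d : ℕ, 1 ≤ d → μ.map (fun x : UnitAddCircle => (d * c : ℤ) • x) ≠
          μ.map (fun x : UnitAddCircle => (d : ℤ) • x))) ∧
    (∀ (C : Set UnitAddCircle) (ω : Measure UnitAddCircle), C.Countable →
      IsProbabilityMeasure ω →
      (∀ E : Set UnitAddCircle, MeasurableSet E → ω E ≠ 0 →
        ∃ θ ∈ C, θ ≠ 0 ∧ ω {y | y ∈ E ∧ y + θ ∈ E} ≠ 0) →
      ∃ A : Set UnitAddCircle, MeasurableSet A ∧ μ A = 1 ∧ ∀ c : ℤ, c ≠ 0 →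
        ∀ t : UnitAddCircle,
          (μ.prod ω) {z : UnitAddCircle × UnitAddCircle | c • z.1 + z.2 + t ∈ A} = 0) ∧
    (∀ (Ω : Type u) (_ : MeasurableSpace Ω) (P : Measure Ω), IsProbabilityMeasure P →
      ∀ (X : ℕ → Ω → UnitAddCircle) (S : Ω → UnitAddCircle), (∀ n, Measurable (X n)) →
        (∀ n, ∃ K : Set UnitAddCircle, K.Countable ∧ ∀ᵐ ω ∂P, X n ω ∈ K) →
        (∃ e : ℝ≥0∞, 0 < e ∧ ∀ D : Set Ω, (∀ k : ℕ,
          MeasurableSet[⨆ n : ℕ, MeasurableSpace.comap (X (k + n)) inferInstance] D) →
            P D = 0 ∨ e ≤ P D) →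
        (∀ᵐ ω ∂P, Tendsto (fun N => ∑ i ∈ Finset.range N, X i ω) atTop (𝓝 (S ω))) →
        (∀ y : UnitAddCircle, P {ω | S ω = y} = 0) →
        ∃ A : Set UnitAddCircle, MeasurableSet A ∧ μ A = 1 ∧ ∀ c : ℤ, c ≠ 0 →
          ∀ t : UnitAddCircle,
            (μ.prod P) {z : UnitAddCircle × Ω | c • z.1 + S z.2 + t ∈ A} = 0) := by
  intro p q hp hq hpq μ hμ hμp hμq hJ hne
  have main : ∀ (C : Set UnitAddCircle) (ω : Measure UnitAddCircle), C.Countable →
      IsProbabilityMeasure ω → Pool.Agent.Zk24.NZ.Ret (C \ {0}) ω →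
      ∃ A : Set UnitAddCircle, MeasurableSet A ∧ μ A = 1 ∧ ∀ c : ℤ, c ≠ 0 →
        ∀ t : UnitAddCircle,
          (μ.prod ω) {z : UnitAddCircle × UnitAddCircle | c • z.1 + z.2 + t ∈ A} = 0 :=
    fun C ω hC hω hret =>
      Pool.Agent.Zk24.NZ.noise_rec_set hp hq hpq hμp hμq hJ hne hC hret
  refine ⟨fun c hc => ?_, fun C ω hC hω hret => main C ω hC hω ?_,
    fun Ω _ P hP X S hX hdis ⟨e, he, htail⟩ hlim hat => ?_⟩
  · rw [← Pool.Agent.Zk32.trans_iff hp hμp hμq hJ hne hc]
    constructor
    · rintro ⟨A, hA, hA1, hA2⟩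
      exact ⟨A, hA, (prob_compl_eq_zero_iff hA).2 hA1, hA2⟩
    · rintro ⟨A, hA, hA1, hA2⟩
      exact ⟨A, hA, (prob_compl_eq_zero_iff hA).1 hA1, hA2⟩
  · intro E hE hE0
    obtain ⟨θ, hθ, hθ0, h⟩ := hret E hE hE0
    exact ⟨θ, ⟨hθ, hθ0⟩, h⟩
  · choose K hK hXK using hdis
    obtain ⟨H, hH, hKH⟩ := Pool.Agent.Zk24.NZ.exists_group (Set.countable_iUnion hK)
    have hSa := Pool.Agent.Zk24.SC.aemeas hX hlim
    have hprob : IsProbabilityMeasure (P.map S) := Measure.isProbabilityMeasure_map hSa
    have herg : Pool.Agent.Zk24.NZ.ErgH H e (P.map S) := by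
      refine Pool.Agent.Zk24.NZ.erg_series (a := fun _ => 0) hX (fun n => ?_) hlim htail
      filter_upwards [hXK n] with ω hω
      rw [sub_zero]
      exact hKH (Set.mem_iUnion.2 ⟨n, hω⟩)
    have hat' : ∀ y : UnitAddCircle, (P.map S) {y} = 0 := by
      intro y
      rw [Measure.map_apply_of_aemeasurable hSa (measurableSet_singleton y)]
      exact hat y
    obtain ⟨A, hA, hA1, hA2⟩ := main H (P.map S) hH hprob
      (Pool.Agent.Zk24.NZ.ret_of_erg hH hat' he.ne' herg)
    refine ⟨A, hA, hA1, fun c hc t => ?_⟩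
    have h1 := hA2 c hc t
    have hSm : Measurable (hSa.mk S) := hSa.measurable_mk
    rw [Measure.map_congr hSa.ae_eq_mk] at h1
    have hcm : Measurable fun x : UnitAddCircle => c • x := (continuous_zsmul c).measurable
    have hf : Measurable fun z : UnitAddCircle × UnitAddCircle => c • z.1 + z.2 + t :=
      ((hcm.comp measurable_fst).add measurable_snd).add_const t
    have hB : MeasurableSet {z : UnitAddCircle × UnitAddCircle | c • z.1 + z.2 + t ∈ A} := hf hA
    have e1 : μ.prod (P.map (hSa.mk S)) =
        (μ.prod P).map (Prod.map (id : UnitAddCircle → UnitAddCircle) (hSa.mk S)) := by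
      rw [← Measure.map_prod_map _ _ measurable_id hSm, Measure.map_id]
    rw [e1, Measure.map_apply (measurable_id.prodMap hSm) hB] at h1
    rw [← h1]
    refine measure_congr ?_
    have hq2 := (Measure.quasiMeasurePreserving_snd (μ := μ) (ν := P)).ae hSa.ae_eq_mk
    filter_upwards [hq2] with z hz
    refine propext ?_
    change c • z.1 + S z.2 + t ∈ A ↔ c • z.1 + hSa.mk S z.2 + t ∈ A
    rw [hz]
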