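import Pool.Agent.Zk32.Gp16

/-!
# Adding independent noise to invariant random points

Let `μ` be an invariant measure singular to Lebesgue measure.  If `w` is any random point then,
outside an event where `w` is thin, `c y + w` is not typical for `μ`, for all integers `c` and all
`y` independent of `w` with an invariant law.  If `μ` is jointly ergodic and `x` has law `μ` then this
holds for `c x + w`, `c ≠ 0`, outside a smaller event where `w` is rigid.  Thin (rigid) means that
along every Folner sequence of exponents the averaged images of the law of `w` can only accumulate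
at measures which are singular to Lebesgue measure (carried by the rational points).
-/

set_option autoImplicit false

open MeasureTheory Filter Topology
open Pool.Agent.Zk32 (ave Folner Lim Tor Rigid Thin RGen RLim)

namespace Pool.Agent.Results.MP_e27144_an.RigidNoise

/-- invariance under `x ↦ p x` and `x ↦ q x` -/
def Inv (p q : ℕ) (μ : Measure UnitAddCircle) : Prop :=
  MeasurePreserving (fun x : UnitAddCircle => p • x) μ μ ∧
  MeasurePreserving (fun x : UnitAddCircle => q • x) μ μ

/-- joint ergodicity -/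
def Erg (p q : ℕ) (μ : Measure UnitAddCircle) : Prop :=
  ∀ E : Set UnitAddCircle, MeasurableSet E →
    (fun x : UnitAddCircle => p • x) ⁻¹' E = E → (fun x : UnitAddCircle => q • x) ⁻¹' E = E →
      μ E = 0 ∨ μ E = 1

/-- **Only thin noise can keep a typical point typical.** Let `p ≥ 2` and `q ≥ 1`; invariant means
invariant under `x ↦ p x` and `x ↦ q x`.

(1) For every law `ω` of a random point `w` there are Borel sets `R ⊆ S` such that

* for a Borel set `B` with `P(w ∈ B) > 0` the law of `w` given `w ∈ B` is rigid (thin) exactly when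
  `P(w ∈ B \ R) = 0` (`P(w ∈ B \ S) = 0`);
* for every invariant `μ` singular to Lebesgue measure there is a Borel set `A` with `μ(A) = 1` such
  that `P(w ∉ S, c y + w ∈ A) = 0` for all integers `c` and all `y` independent of `w` with an
  invariant law, and, if `μ` is jointly ergodic, `P(w ∉ R, c x + w ∈ A) = 0` for all `c ≠ 0` and
  `x` with law `μ` independent of `w`;
* if `p` and `q` are multiplicatively independent then `S` contains no irrational atom of `ω`, and,
  for every `C`, `P(w ∈ S, d ≤ ‖p ^ a * q ^ b * w‖ ≤ C d)` tends to zero as `d → 0`, uniformly in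
  `a` and `b`.

(2) For a jointly ergodic invariant `μ` other than Lebesgue measure let `RGen p q μ` be the set of
all `x` whose averages over the rectangles of exponents `i < L`, `j < M` converge to `μ` as `L`, `M`
tend to infinity in any manner.  It is a Borel set of full measure and

* if some limit `κ` of the averages of a point `t` over rectangles has `κ(Tor) < 1` then
  `μ{x : c x + t ∈ RGen p q μ} = 0` for all `c ≠ 0`; if `κ` is not singular to Lebesgue measure,
  for instance if `t` is normal in base `p` or in base `q`, then `ν{x : c x + t ∈ RGen p q μ} = 0`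
  for all `c` and all invariant probability measures `ν`;
* `P(c x + y + t ∈ RGen p q μ) = 0` for all points `t` and `c ≠ 0`, if `x` has law `μ` and `y` is
  independent of `x` with an invariant law without atoms.

(3) For every real random variable `W`, `W ≠ 0` almost surely, and Lebesgue almost every real `s`:
`P(c y + s W ∈ RGen p q μ) = 0` for all `μ` as in (2), all integers `c` and all `y` independent of
`W` with an invariant law. -/
theorem result {p q : ℕ} (hp : 2 ≤ p) (hq : 1 ≤ q) :
    (∀ ω : Measure UnitAddCircle, IsProbabilityMeasure ω →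
      ∃ R S : Set UnitAddCircle, MeasurableSet R ∧ MeasurableSet S ∧ R ⊆ S ∧
        (∀ B : Set UnitAddCircle, MeasurableSet B → ω B ≠ 0 →
          (Rigid p q (ProbabilityTheory.cond ω B) ↔ ω (B \ R) = 0) ∧
          (Thin p q (ProbabilityTheory.cond ω B) ↔ ω (B \ S) = 0)) ∧
        (∀ μ : Measure UnitAddCircle, IsProbabilityMeasure μ → Inv p q μ →
          μ.MutuallySingular volume →
          ∃ A : Set UnitAddCircle, MeasurableSet A ∧ μ A = 1 ∧
            (∀ c : ℤ, ∀ ν : Measure UnitAddCircle, IsProbabilityMeasure ν → Inv p q ν →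
              (ν.prod ω) {z : UnitAddCircle × UnitAddCircle |
                z.2 ∉ S ∧ c • z.1 + z.2 ∈ A} = 0) ∧
            (Erg p q μ → ∀ c : ℤ, c ≠ 0 →
              (μ.prod ω) {z : UnitAddCircle × UnitAddCircle |
                z.2 ∉ R ∧ c • z.1 + z.2 ∈ A} = 0)) ∧
        (2 ≤ q → Irrational (Real.log p / Real.log q) →
          (∀ t : UnitAddCircle, t ∉ Tor → ω {t} ≠ 0 → t ∉ S) ∧
          ∀ C ε : ℝ, 0 < ε → ∃ δ : ℝ, 0 < δ ∧ ∀ (a b : ℕ) (d : ℝ), 0 < d → d < δ →
            ω.real {w | w ∈ S ∧ d ≤ ‖(p ^ a * q ^ b) • w‖ ∧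
              ‖(p ^ a * q ^ b) • w‖ ≤ C * d} ≤ ε)) ∧
    (∀ μ : Measure UnitAddCircle, IsProbabilityMeasure μ → Inv p q μ → Erg p q μ → μ ≠ volume →
      MeasurableSet (RGen p q μ) ∧ μ (RGen p q μ) = 1 ∧
        (∀ (t : UnitAddCircle) (κ : Measure UnitAddCircle), IsProbabilityMeasure κ →
          RLim p q (Measure.dirac t) κ →
          (κ Tor < 1 → ∀ c : ℤ, c ≠ 0 → μ {x | c • x + t ∈ RGen p q μ} = 0) ∧
          (¬ κ.MutuallySingular volume → ∀ c : ℤ, ∀ ν : Measure UnitAddCircle,
            IsProbabilityMeasure ν → Inv p q ν → ν {x | c • x + t ∈ RGen p q μ} = 0)) ∧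
        (∀ t : UnitAddCircle, ∀ r : ℕ, r = p ∨ r = q →
          (∀ g : C(UnitAddCircle, ℝ), Tendsto (fun N : ℕ =>
            (N : ℝ)⁻¹ * ∑ i ∈ Finset.range N, g ((r ^ i) • t)) atTop
              (𝓝 (∫ x : UnitAddCircle, g x))) →
          ∀ c : ℤ, ∀ ν : Measure UnitAddCircle, IsProbabilityMeasure ν → Inv p q ν →
            ν {x | c • x + t ∈ RGen p q μ} = 0) ∧
        (∀ ν : Measure UnitAddCircle, IsProbabilityMeasure ν → Inv p q ν →
          (∀ x : UnitAddCircle, ν {x} = 0) → ∀ c : ℤ, c ≠ 0 → ∀ t : UnitAddCircle,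
            (μ.prod ν) {z : UnitAddCircle × UnitAddCircle |
              c • z.1 + z.2 + t ∈ RGen p q μ} = 0)) ∧
    (∀ θ : Measure ℝ, IsProbabilityMeasure θ → θ {0} = 0 → ∀ᵐ s : ℝ,
      ∀ μ : Measure UnitAddCircle, IsProbabilityMeasure μ → Inv p q μ → Erg p q μ → μ ≠ volume →
      ∀ c : ℤ, ∀ ν : Measure UnitAddCircle, IsProbabilityMeasure ν → Inv p q ν →
        (ν.prod θ) {z : UnitAddCircle × ℝ |
          c • z.1 + ((s * z.2 : ℝ) : UnitAddCircle) ∈ RGen p q μ} = 0) := by
  refine ⟨?_, ?_, ?_⟩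
  · intro ω hω
    obtain ⟨R₀, hR₀, hmaxR₀⟩ := Pool.Agent.Zk32.exists_rigid' p q ω
    obtain ⟨S, hS, hmaxS⟩ := Pool.Agent.Zk32.exists_thin p q ω
    have hmaxR : ∀ B : Set UnitAddCircle, MeasurableSet B → ω B ≠ 0 →
        (Rigid p q (ProbabilityTheory.cond ω B) ↔ ω (B \ (R₀ ∩ S)) = 0) := by
      intro B hB h0
      rw [Set.sdiff_inter, measure_union_null_iff]
      constructor
      · intro h
        exact ⟨(hmaxR₀ B hB h0).mp h, (hmaxS B hB h0).mp (Pool.Agent.Zk32.Rigid.thin h)⟩
      · intro h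
        exact (hmaxR₀ B hB h0).mpr h.1
    refine ⟨R₀ ∩ S, S, hR₀.inter hS, hS, Set.inter_subset_right,
      fun B hB h0 => ⟨hmaxR B hB h0, hmaxS B hB h0⟩, ?_, ?_⟩
    · rintro μ hμ ⟨hμp, hμq⟩ hsing
      obtain ⟨A₁, hA₁, hA₁1, hA₁2⟩ := Pool.Agent.Zk32.pair_outside hμp hμq hsing ω hS
        (fun B hB h0 h => (hmaxS B hB h0).mp h)
      by_cases hJ : Erg p q μ
      · have hvol : μ ≠ volume := by
          rintro rfl
          exact Pool.Agent.Zk32.vol_not_sing hsing
        obtain ⟨A₂, hA₂, hA₂1, hA₂2⟩ := Pool.Agent.Zk32.noise_outside hp hμp hμq hJ hvol ω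
          (hR₀.inter hS) (fun B hB h0 h => (hmaxR B hB h0).mp h)
        refine ⟨A₁ ∩ A₂, hA₁.inter hA₂, ?_, fun c ν hν hi => ?_, fun _ c hc => ?_⟩
        · refine (prob_compl_eq_zero_iff (hA₁.inter hA₂)).mp ?_
          rw [Set.compl_inter]
          exact measure_union_null ((prob_compl_eq_zero_iff hA₁).mpr hA₁1)
            ((prob_compl_eq_zero_iff hA₂).mpr hA₂1)
        · refine measure_mono_null (fun z hz => ?_) (hA₁2 c ν hν hi.1 hi.2)
          exact ⟨hz.1, hz.2.1⟩
        · refine measure_mono_null (fun z hz => ?_) (hA₂2 c hc)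
          exact ⟨hz.1, hz.2.2⟩
      · exact ⟨A₁, hA₁, hA₁1, fun c ν hν hi => hA₁2 c ν hν hi.1 hi.2, fun h => absurd h hJ⟩
    · intro hq2 hirr
      refine ⟨fun t ht hat => Pool.Agent.Zk32.no_irrational_thin hp hq2 hirr ω hmaxS ht hat, ?_⟩
      intro C ε hε
      have hSt : ω S ≠ 0 → Thin p q (ProbabilityTheory.cond ω S) := fun h0 =>
        (hmaxS S hS h0).mpr (by rw [Set.sdiff_self, measure_empty])
      obtain ⟨δ, hδ, h⟩ := Pool.Agent.Zk32.thin_scale hp hq2 hirr ω hS hSt
        (C := max C 1) (le_max_right _ _) hε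
      refine ⟨δ, hδ, fun a b d hd0 hd => le_trans (measureReal_mono ?_) (h a b d hd0 hd)⟩
      rintro w ⟨h1, h2, h3⟩
      exact ⟨h1, h2, h3.trans (mul_le_mul_of_nonneg_right (le_max_left _ _) hd0.le)⟩
  · rintro μ hμ ⟨hμp, hμq⟩ hJ hvol
    have hsing := Pool.Agent.Zk32.sing_of_erg hp hμp hμq hJ hvol hq
    refine ⟨Pool.Agent.Zk32.rgen_meas p q μ, Pool.Agent.Zk32.rgen_full hμp hμq hJ, ?_, ?_, ?_⟩
    · intro t κ hκ hl
      refine ⟨fun h c hc => ?_, fun h c ν hν hi => ?_⟩
      · exact Pool.Agent.Zk32.rgen_point hp hμp hμq hJ hvol hc t κ hl h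
      · exact Pool.Agent.Zk32.rgen_pair_point hi.1 hi.2 hsing c t κ hl h
    · rintro t r hr ht c ν hν hi
      refine Pool.Agent.Zk32.rgen_pair_point hi.1 hi.2 hsing c t volume ?_
        Pool.Agent.Zk32.vol_not_sing
      rcases hr with rfl | rfl
      · exact Pool.Agent.Zk32.rlim_normal_p hq ht
      · exact Pool.Agent.Zk32.rlim_normal_q (by omega) ht
    · intro ν hν hi hat c hc t
      exact Pool.Agent.Zk32.rgen_inv hp hμp hμq hJ hvol hc ν hi.1 hi.2 hat t
  · intro θ hθ h0
    filter_upwards [Pool.Agent.Zk32.dilation hp hq θ h0] with s hs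
    rintro μ hμ ⟨hμp, hμq⟩ hJ hvol c ν hν hi
    exact hs μ hμ (Pool.Agent.Zk32.sing_of_erg hp hμp hμq hJ hvol hq) c ν hν hi.1 hi.2

end Pool.Agent.Results.MP_e27144_an.RigidNoise
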