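import Mathlib
import Pool.Agent.Zk24.SL.Gen2
import Pool.Agent.Zk24.SL.UnivAll
import Pool.Agent.Zk32.Tw3
import Pool.Agent.Zk85.Tw1

/-!
# A rational subspace which carries all the singular invariant measures

Furstenberg's conjecture says that all the probability measures on `R/Z` which are invariant under
`x ↦ p x`, `x ↦ q x` and singular to Lebesgue measure are carried by the `Q`-linear subspace `Q` of
`R`.  It is shown, for coprime `p`, `q`, that for every countable set of irrational numbers there is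
one Borel `Q`-linear subspace `L` of `R`, of Hausdorff dimension zero, which contains no number of
this set and carries all these measures.  This subspace has measure zero for all the laws whose
images are not singular in the limit, in particular for all the Rajchman measures: modulo one it is a
set of extended uniqueness.  Moreover `L` can be taken of measure zero for given laws with thick
images, and for the laws of `f (X) + ∑ c j y j + w`, where `f` is a real polynomial, `X` a
random vector driven by rational homotheties, the laws of the `y j` are invariant and singular to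
Lebesgue measure, and `f` has an irrational nonconstant coefficient or the law of `w` is thick.
-/

set_option autoImplicit false

open MeasureTheory Filter Topology
open Pool.Agent.Zk32 (ave Folner Lim)

namespace Pool.Agent.Results.MP_e27144_an.UniversalSubspace

/-- the points of the circle with a real representative in `L` -/
def Mod (L : Submodule ℚ ℝ) : Set UnitAddCircle := {w | ∃ T : ℝ, (T : UnitAddCircle) = w ∧ T ∈ L}

/-- The law `ω` on the circle is thick: for every Borel set `B` of positive measure the averages of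
the images of `ω` given `B` under `x ↦ p ^ i * q ^ j * x`, along some Folner sequence of sets of
exponents `(i, j)`, converge to a law which is not singular to Lebesgue measure. -/
def Thick (p q : ℕ) (ω : Measure UnitAddCircle) : Prop :=
  ∀ B : Set UnitAddCircle, MeasurableSet B → ω B ≠ 0 →
    ∃ F : ℕ → Finset (ℕ × ℕ), Folner F ∧ ∃ κ : Measure UnitAddCircle, IsProbabilityMeasure κ ∧
      Lim p q F (ProbabilityTheory.cond ω B) κ ∧ ¬ κ ⟂ₘ (volume : Measure UnitAddCircle)

/-- The law `ω` on the circle is solid: for every Borel set `B` of positive measure and every Folner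
sequence of sets of exponents `(i, j)`, no limit of the averages of the images of `ω` given `B` under
`x ↦ p ^ i * q ^ j * x` is singular to Lebesgue measure. -/
def Solid (p q : ℕ) (ω : Measure UnitAddCircle) : Prop :=
  ∀ B : Set UnitAddCircle, MeasurableSet B → ω B ≠ 0 →
    ∀ F : ℕ → Finset (ℕ × ℕ), Folner F → ∀ κ : Measure UnitAddCircle, IsProbabilityMeasure κ →
      Lim p q F (ProbabilityTheory.cond ω B) κ → ¬ κ ⟂ₘ (volume : Measure UnitAddCircle)

/-- The rational subspace `L` of `R` is a Borel set of Hausdorff dimension zero, contains `Q`, is a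
null set (modulo one) for every solid law, and carries every probability measure `ν` on `R/Z` which
is invariant under `x ↦ p x`, `x ↦ q x` and singular to Lebesgue measure: for `ν`-almost all `x` all
the real representatives of `x` are in `L`. -/
def Universal (p q : ℕ) (L : Submodule ℚ ℝ) : Prop :=
  MeasurableSet (L : Set ℝ) ∧ dimH (L : Set ℝ) = 0 ∧ (∀ a : ℚ, (a : ℝ) ∈ L) ∧
    (∀ ω : Measure UnitAddCircle, IsProbabilityMeasure ω → Solid p q ω → ω (Mod L) = 0) ∧
    ∀ ν : Measure UnitAddCircle, IsProbabilityMeasure ν →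
      MeasurePreserving (fun x : UnitAddCircle => p • x) ν ν →
      MeasurePreserving (fun x : UnitAddCircle => q • x) ν ν →
      ν ⟂ₘ (volume : Measure UnitAddCircle) →
      ∀ᵐ x ∂ν, ∀ X : ℝ, (X : UnitAddCircle) = x → X ∈ L

/-- The random vector `X`, defined on `(Ω, P)`, is driven by rational homotheties: `S` is a
conservative (nonsingular) map of `(Ω, P)`, for instance `P` is a finite measure preserved by `S`;
`X (S ω) = r ω X ω + e ω` with `r ω ≠ 0` in `Q` and `e ω` in `Q ^ d`; almost surely the products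
`r ω r (S ω) ⋯ r (S ^ (k - 1) ω)` tend to zero or to infinity in absolute value, or at least
`|log |·||` tends to infinity; and `X` is almost surely in no rational affine hyperplane. -/
def Driven.{u} {Ω : Type u} [MeasurableSpace Ω] {d : ℕ} (P : Measure Ω) (S : Ω → Ω)
    (X : Ω → Fin d → ℝ) : Prop :=
  Conservative S P ∧ Measurable X ∧
  (∃ (r : Ω → ℚ) (e : Ω → Fin d → ℚ), Measurable r ∧
    (∀ᵐ ω ∂P, r ω ≠ 0 ∧ ∀ i, X (S ω) i = r ω * X ω i + e ω i) ∧
    ∀ᵐ ω ∂P, Tendsto (fun k : ℕ => |Real.log (∏ j ∈ Finset.range k, (r (S^[j] ω) : ℝ))|)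
      atTop atTop) ∧
  ∀ (a : Fin d → ℚ) (b : ℚ), a ≠ 0 → P {ω | ∑ i, (a i : ℝ) * X ω i = b} = 0

/-- Let `p, q ≥ 2`.

(1) Let `p` and `q` be coprime, `K` a countable set of real numbers, and `ω l` thick laws. There is a
universal rational subspace `L` which contains no irrational number of `K`, with
`ω l (L mod 1) = 0`.  All the Rajchman measures are solid, and so null on all the universal
subspaces.

(2) Let `L` be any Borel `Q`-linear subspace of `R`.  For all random vectors `X` in `R ^ d` driven by
rational homotheties and all real polynomials `f` with a coefficient which is not in `L` the number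
`f (X)` is almost surely not in `L`.

(3) Let moreover `n` be an integer, `|n| ≥ 2`, and `κ` a measure on the torus `(R/Z) ^ d`,
conservative under `x ↦ n x`, with measure zero on the sets `{∑ m i x i = c}`, for all integer
vectors `m ≠ 0` and `c` of finite order; then for `κ`-almost all `x` the numbers `f (X)`, for all
the real representatives `X` of `x`, are not in `L`.

(4) Let `X` be driven by rational homotheties, `f` a real polynomial, and `(y 1, …, y r, w)` random
points independent of `X`, and let `f` have an irrational nonconstant coefficient, or `f (0) = 0`,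
the law of `w` be thick and the laws of the `y j` be invariant and singular to Lebesgue measure.  If
`p` and `q` are coprime there is a universal rational subspace `L` such that
`Z = f (X) + ∑ c j y j + w` modulo one is almost surely not in `L mod 1`; and a probability measure
`μ` invariant under `x ↦ p x`, `x ↦ q x` and absolutely continuous with respect to the law of `Z` is
Lebesgue measure. -/
theorem result.{u, v} (p q : ℕ) (hp : 2 ≤ p) (hq : 2 ≤ q) :
    -- (1)
    (Nat.Coprime p q → ∀ K : Set ℝ, K.Countable →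
      ∀ ω : ℕ → Measure UnitAddCircle, (∀ l, IsProbabilityMeasure (ω l) ∧ Thick p q (ω l)) →
      ∃ L : Submodule ℚ ℝ, Universal p q L ∧ (∀ x ∈ L, x ∈ K → ∃ a : ℚ, x = a) ∧
        ∀ l, ω l (Mod L) = 0) ∧
    (Nat.Coprime p q → ∀ ω : Measure UnitAddCircle, IsProbabilityMeasure ω →
      Tendsto (fun n : ℤ => ∫ x : UnitAddCircle, (fourier n x : ℂ) ∂ω) cofinite (𝓝 0) →
      Solid p q ω) ∧
    (∀ L : Submodule ℚ ℝ, MeasurableSet (L : Set ℝ) →
      -- (2)
      (∀ (Ω : Type u) (_ : MeasurableSpace Ω) (P : Measure Ω) (S : Ω → Ω) (d : ℕ)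
        (X : Ω → Fin d → ℝ), Driven P S X → ∀ f : MvPolynomial (Fin d) ℝ,
        (∃ α, f.coeff α ∉ L) → ∀ᵐ ω ∂P, MvPolynomial.eval (X ω) f ∉ L) ∧
      -- (3)
      ∀ (n : ℤ) (d : ℕ) (κ : Measure (Fin d → UnitAddCircle)), 2 ≤ |n| →
        Conservative (fun x : Fin d → UnitAddCircle => n • x) κ →
        (∀ m : Fin d → ℤ, m ≠ 0 → ∀ c : UnitAddCircle, IsOfFinAddOrder c →
          κ {x | ∑ i, m i • x i = c} = 0) →
        ∀ f : MvPolynomial (Fin d) ℝ, (∃ α, f.coeff α ∉ L) →
        ∀ᵐ x ∂κ, ∀ X : Fin d → ℝ, (∀ i, ((X i : ℝ) : UnitAddCircle) = x i) →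
          MvPolynomial.eval X f ∉ L) ∧
    (∀ (Ω : Type u) (_ : MeasurableSpace Ω) (P : Measure Ω) (S : Ω → Ω) (d : ℕ)
      (X : Ω → Fin d → ℝ), IsProbabilityMeasure P → Driven P S X →
      ∀ (Ω' : Type v) (_ : MeasurableSpace Ω') (Q : Measure Ω') (r : ℕ)
      (y : Fin r → Ω' → UnitAddCircle) (w : Ω' → UnitAddCircle), IsProbabilityMeasure Q →
      (∀ j, Measurable (y j)) → Measurable w →
      -- (4)
      ∀ (f : MvPolynomial (Fin d) ℝ) (c : Fin r → ℤ), Nat.Coprime p q →
        ((∃ α, α ≠ 0 ∧ Irrational (f.coeff α)) ∨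
          (f.coeff 0 = 0 ∧ Thick p q (Q.map w) ∧ ∀ j,
            MeasurePreserving (fun x : UnitAddCircle => p • x) (Q.map (y j)) (Q.map (y j)) ∧
            MeasurePreserving (fun x : UnitAddCircle => q • x) (Q.map (y j)) (Q.map (y j)) ∧
            Q.map (y j) ⟂ₘ (volume : Measure UnitAddCircle))) →
        (∃ L : Submodule ℚ ℝ, Universal p q L ∧ (P.prod Q) {z : Ω × Ω' |
          ((MvPolynomial.eval (X z.1) f : ℝ) : UnitAddCircle) + ∑ j, c j • y j z.2 + w z.2 ∈
            Mod L} = 0) ∧
        ∀ μ : Measure UnitAddCircle, IsProbabilityMeasure μ →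
          MeasurePreserving (fun x : UnitAddCircle => p • x) μ μ →
          MeasurePreserving (fun x : UnitAddCircle => q • x) μ μ →
          μ ≪ (P.prod Q).map (fun z : Ω × Ω' =>
            ((MvPolynomial.eval (X z.1) f : ℝ) : UnitAddCircle) + ∑ j, c j • y j z.2 + w z.2) →
          μ = volume) := by
  have hrat : ∀ L : Submodule ℚ ℝ, (1 : ℝ) ∈ L → ∀ a : ℚ, (a : ℝ) ∈ L := by
    intro L hL1 a
    have := L.smul_mem a hL1
    rwa [Rat.smul_def, mul_one] at this
  refine ⟨?_, ?_, fun L hL => ⟨?_, ?_⟩, ?_⟩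
  · intro hpq K hK ω hω
    obtain ⟨L₁, h₁m, h₁d, h₁1, h₁K, h₁ω, h₁ν⟩ := Pool.Agent.Zk24.SL.exists_all hp hq hpq hK
      (fun l => (hω l).1) (fun l => (hω l).2)
    obtain ⟨L, hLL, hLm, hLd, hL1, hLc, hLs, hLν⟩ :=
      Pool.Agent.Zk32.univ_solid hp hq hpq h₁m h₁d h₁1 h₁ν
    exact ⟨L, ⟨hLm, hLd, hrat L hL1, hLs, hLν⟩, fun x hx => h₁K x (hLL hx),
      fun l => measure_mono_null hLc (h₁ω l)⟩
  · intro hpq ω hω hr
    exact Pool.Agent.Zk32.solid_of_lim fun B hB h0 F hF =>
      Pool.Agent.Zk85.Tw.raj_lim hp hq hpq hF hr hB h0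
  · intro Ω _ P S d X hX f hf
    exact Pool.Agent.Zk24.SL.driven_L hX hL hf
  · intro n d κ hn hκ hat f hf
    exact Pool.Agent.Zk24.SL.torus_L hn hκ hat hL hf
  · intro Ω _ P S d X hP hX Ω' _ Q r y w hQ hy hw f c hpq h
    have hWm : Measurable fun ω => MvPolynomial.eval (X ω) f :=
      Pool.Agent.Zk24.SL.meas_ev hX.2.1 (RingHom.id ℝ) f
    have hadd : ∀ (L : Submodule ℚ ℝ), MeasurableSet (L : Set ℝ) → ∀ t : ℝ,
        (∃ α, (f + MvPolynomial.C t).coeff α ∉ L) →
        P {ω | MvPolynomial.eval (X ω) f + t ∈ L} = 0 := by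
      intro L hL t h
      refine measure_eq_zero_iff_ae_notMem.2 ?_
      filter_upwards [Pool.Agent.Zk24.SL.driven_L hX hL h] with ω hω hmem
      apply hω
      rw [map_add, MvPolynomial.eval_C]
      exact hmem
    have hA : (∃ α, α ≠ 0 ∧ Irrational (f.coeff α)) → ∃ θ : ℝ, Irrational θ ∧
        ∀ L : Submodule ℚ ℝ, MeasurableSet (L : Set ℝ) → (1 : ℝ) ∈ L → θ ∉ L →
          ∀ t : ℝ, P {ω | MvPolynomial.eval (X ω) f + t ∈ L} = 0 := by
      rintro ⟨α, hα, hαi⟩
      refine ⟨f.coeff α, hαi, fun L hL _ hαL t => hadd L hL t ⟨α, ?_⟩⟩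
      classical
      rwa [MvPolynomial.coeff_add, MvPolynomial.coeff_C, if_neg (fun h => hα h.symm), add_zero]
    have hB : f.coeff 0 = 0 → ∀ L : Submodule ℚ ℝ, MeasurableSet (L : Set ℝ) → (1 : ℝ) ∈ L →
        ∀ t : ℝ, t ∉ L → P {ω | MvPolynomial.eval (X ω) f + t ∈ L} = 0 := by
      intro hf0 L hL _ t ht
      refine hadd L hL t ⟨0, ?_⟩
      rwa [MvPolynomial.coeff_add, MvPolynomial.coeff_C, if_pos rfl, hf0, zero_add]
    refine ⟨?_, fun μ hμ hμp hμq hac => ?_⟩
    · obtain ⟨L₁, h₁m, h₁d, h₁1, h₁0, h₁ν⟩ := Pool.Agent.Zk24.SL.univ_law hp hq hpq hWm hy hw c (by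
        rcases h with h | ⟨hf0, hth, hyS⟩
        · exact Or.inl (hA h)
        · exact Or.inr ⟨hB hf0, hth, hyS⟩)
      obtain ⟨L, -, hLm, hLd, hL1, hLc, hLs, hLν⟩ :=
        Pool.Agent.Zk32.univ_solid hp hq hpq h₁m h₁d h₁1 h₁ν
      exact ⟨L, ⟨hLm, hLd, hrat L hL1, hLs, hLν⟩, measure_mono_null (fun z hz => hLc hz) h₁0⟩
    · refine Pool.Agent.Zk32.rigid_gen hp hq hpq hWm hy hw c ?_ hμp hμq hac
      rcases h with h | ⟨hf0, hth, hyS⟩
      · exact Or.inl (hA h)
      · exact Or.inr ⟨hB hf0, hth, hyS⟩

end Pool.Agent.Results.MP_e27144_an.UniversalSubspace
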